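import Mathlib

namespace Pool.Agent.Results.MP_34afd1_lc.NotAuto

/-- Convolution of two words; `none` is the padding symbol. -/
def conv2 {A : Type} (a b : List A) : List (Option A × Option A) :=
  (List.range (max a.length b.length)).map (fun i => (a[i]?, b[i]?))

/-- Convolution of three words; `none` is the padding symbol. -/
def conv3 {A : Type} (a b d : List A) : List (Option A × Option A × Option A) :=
  (List.range (max (max a.length b.length) d.length)).map (fun i => (a[i]?, b[i]?, d[i]?))

/-- `code` (read on the positive integers only) is an automatic presentation of the structure: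
it is a bijection onto a regular domain, and the order and the graphs of addition and of
`x * 2 ^ y` are automatic. -/
structure IsPresentation {A : Type} (code : ℕ → List A) : Prop where
  inj : Set.InjOn code {n | 0 < n}
  dom : Language.IsRegular {w | ∃ x, 0 < x ∧ w = code x}
  le : Language.IsRegular {w | ∃ x y, 0 < x ∧ 0 < y ∧ x ≤ y ∧ w = conv2 (code x) (code y)}
  add : Language.IsRegular
    {w | ∃ x y, 0 < x ∧ 0 < y ∧ w = conv3 (code x) (code y) (code (x + y))}
  shift : Language.IsRegular
    {w | ∃ x y, 0 < x ∧ 0 < y ∧ w = conv3 (code x) (code y) (code (x * 2 ^ y))}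

theorem fm {A : Type} (a : List A) : ∀ n, a.length ≤ n →
    (List.range n).filterMap (fun i => a[i]?) = a := by
  induction a with
  | nil => intro n _; simp
  | cons x a ih =>
    intro n hn
    obtain ⟨k, rfl⟩ : ∃ k, n = k + 1 := ⟨n - 1, by simp at hn; omega⟩
    rw [List.range_succ_eq_map, List.filterMap_cons]
    simp only [List.getElem?_cons_zero, List.filterMap_map]
    congr 1
    exact ih k (by simpa using hn)

theorem p1 {A : Type} (a b c : List A) : (conv3 a b c).filterMap (fun t => t.1) = a := by
  rw [conv3, List.filterMap_map]; exact fm a _ (by omega)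

theorem p2 {A : Type} (a b c : List A) : (conv3 a b c).filterMap (fun t => t.2.1) = b := by
  rw [conv3, List.filterMap_map]; exact fm b _ (by omega)

theorem growth {A : Type} (code : ℕ → List A) (inj : Set.InjOn code {n | 0 < n}) (f : ℕ → ℕ → ℕ)
    (h : Language.IsRegular
      {w | ∃ x y, 0 < x ∧ 0 < y ∧ w = conv3 (code x) (code y) (code (f x y))}) :
    ∃ C, ∀ x y, 0 < x → 0 < y →
      (code (f x y)).length ≤ max (code x).length (code y).length + C := by
  obtain ⟨σ, hσ, D, hD⟩ := h
  refine ⟨Fintype.card σ, fun x y hx hy => ?_⟩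
  by_contra hlt
  push Not at hlt
  set m := max (code x).length (code y).length with hm
  set w := conv3 (code x) (code y) (code (f x y)) with hw
  have hwl : w.length = max m (code (f x y)).length := by simp [hw, conv3, hm]
  have hacc : w ∈ D.accepts := by rw [hD]; exact ⟨x, y, hx, hy, rfl⟩
  obtain ⟨q, u, v, r, e, -, hv, e1, e2, e3⟩ := D.evalFrom_split
    (x := w.drop m) (s := D.eval (w.take m)) (by rw [List.length_drop, hwl]; omega) rfl
  have hnone : ∀ t ∈ v, t.1 = none ∧ t.2.1 = none := by
    intro t ht
    have : t ∈ w.drop m := by rw [e]; simp [ht]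
    rw [hw, conv3, ← List.map_drop] at this
    obtain ⟨i, hi, rfl⟩ := List.mem_map.1 this
    have hi' : m ≤ i := by
      obtain ⟨j, hj, rfl⟩ := List.mem_iff_getElem.1 hi
      simp
    constructor <;> simp <;> omega
  have hw2 : w = w.take m ++ (u ++ v ++ r) := by rw [← e]; simp
  have hacc2 : w.take m ++ (u ++ r) ∈ D.accepts := by
    rw [DFA.mem_accepts] at hacc ⊢
    have a1 : D.eval w = D.evalFrom (D.eval (w.take m)) (w.drop m) := by
      conv_lhs => rw [← List.take_append_drop m w]
      simp [DFA.eval, DFA.evalFrom, List.foldl_append, -List.take_append_drop]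
    have a2 : D.eval (w.take m ++ (u ++ r)) =
        D.evalFrom (D.evalFrom (D.eval (w.take m)) u) r := by
      simp [DFA.eval, DFA.evalFrom, List.foldl_append]
    rw [a2, e1, e3, ← a1]
    exact hacc
  rw [hD] at hacc2
  obtain ⟨x', y', hx', hy', e4⟩ := hacc2
  have n1 : v.filterMap (fun t => t.1) = [] := by
    rw [List.filterMap_eq_nil_iff]; exact fun t ht => (hnone t ht).1
  have n2 : v.filterMap (fun t => t.2.1) = [] := by
    rw [List.filterMap_eq_nil_iff]; exact fun t ht => (hnone t ht).2
  have b1 : code x' = code x := by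
    rw [← p1 (code x') (code y') (code (f x' y')), ← e4, ← p1 (code x) (code y) (code (f x y)),
      ← hw]
    conv_rhs => rw [hw2]
    simp only [List.filterMap_append, n1, List.append_nil]
  have b2 : code y' = code y := by
    rw [← p2 (code x') (code y') (code (f x' y')), ← e4, ← p2 (code x) (code y) (code (f x y)),
      ← hw]
    conv_rhs => rw [hw2]
    simp only [List.filterMap_append, n2, List.append_nil]
  rw [inj hx' hx b1, inj hy' hy b2, ← hw] at e4
  have l1 := congrArg List.length e4
  have l2 := congrArg List.length hw2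
  have l3 : 0 < v.length := List.length_pos_iff.2 hv
  simp only [List.length_append] at l1 l2
  omega

theorem result (A : Type) [Fintype A] (code : ℕ → List A) : ¬ IsPresentation code := by
  rintro ⟨inj, -, -, hadd, hshift⟩
  obtain ⟨C1, h1⟩ := growth code inj (fun x y => x + y) hadd
  obtain ⟨C2, h2⟩ := growth code inj (fun x y => x * 2 ^ y) hshift
  set L := (code 1).length with hL
  set C := C1 + C2 with hC
  have P : ∀ k, (code (2 ^ k)).length ≤ L + k * C := by
    intro k
    induction k with
    | zero => simp [hL]
    | succ k ih =>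
      have := h1 (2 ^ k) (2 ^ k) (by positivity) (by positivity)
      rw [← two_mul, ← pow_succ'] at this
      rw [Nat.succ_mul]
      omega
  have B : ∀ k x, 0 < x → x < 2 ^ 2 ^ k → (code x).length ≤ L + k * C := by
    intro k
    induction k with
    | zero =>
      intro x hx hx2
      have : x = 1 := by simp at hx2; omega
      simp [this, hL]
    | succ k ih =>
      intro x hx hx2
      have hq : x / 2 ^ 2 ^ k < 2 ^ 2 ^ k := by
        rw [Nat.div_lt_iff_lt_mul (by positivity), ← pow_add, ← two_mul, ← pow_succ']
        exact hx2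
      have hr : x % 2 ^ 2 ^ k < 2 ^ 2 ^ k := Nat.mod_lt _ (by positivity)
      have e : x / 2 ^ 2 ^ k * 2 ^ 2 ^ k + x % 2 ^ 2 ^ k = x := Nat.div_add_mod' _ _
      rw [Nat.succ_mul]
      generalize x / 2 ^ 2 ^ k = q at hq e
      generalize x % 2 ^ 2 ^ k = r at hr e
      rcases Nat.eq_zero_or_pos q with rfl | hq0
      · have : r = x := by simpa using e
        have := ih x hx (by omega)
        omega
      · have a1 := h2 q (2 ^ k) hq0 (by positivity)
        have a2 := ih q hq0 hq
        have a3 := P k
        rcases Nat.eq_zero_or_pos r with rfl | hr0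
        · rw [add_zero] at e
          rw [e] at a1
          omega
        · have a4 := h1 (q * 2 ^ 2 ^ k) r (by positivity) hr0
          have a5 := ih r hr0 hr
          rw [e] at a4
          omega
  have cnt : ∀ k, 2 ^ 2 ^ k - 1 ≤ (Fintype.card A + 1) ^ (L + k * C) := by
    intro k
    classical
    have := Finset.card_le_card_of_injOn (s := Finset.Ioo 0 (2 ^ 2 ^ k))
      (t := (Finset.univ : Finset (Fin (L + k * C) → Option A)))
      (fun x i => (code x)[i.val]?) (fun _ _ => by simp) (by
        intro x hx y hy hxy
        simp only [Finset.coe_Ioo, Set.mem_Ioo] at hx hy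
        refine inj hx.1 hy.1 (List.ext_getElem? fun i => ?_)
        by_cases hi : i < L + k * C
        · exact congrFun hxy ⟨i, hi⟩
        · have := B k x hx.1 hx.2
          have := B k y hy.1 hy.2
          rw [List.getElem?_eq_none (by omega), List.getElem?_eq_none (by omega)])
    simpa using this
  set s := Fintype.card A
  set j := s * L + 2 * (s * C) + 1 with hj
  have c1 := cnt (2 * j)
  have c2 : (s + 1) ^ (L + 2 * j * C) ≤ (2 ^ s) ^ (L + 2 * j * C) :=
    Nat.pow_le_pow_left Nat.lt_two_pow_self _
  have c3 : s * (L + 2 * j * C) + 1 ≤ 2 ^ (2 * j) := by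
    have : j < 2 ^ j := Nat.lt_two_pow_self
    rw [two_mul j, pow_add]
    have h3 : j * j ≤ 2 ^ j * 2 ^ j := Nat.mul_le_mul this.le this.le
    have h4 : s * (L + (j + j) * C) + 1 ≤ j * j := by
      have : j * j = j * (s * L) + 2 * j * (s * C) + j := by rw [hj]; ring
      have h5 : 1 ≤ j := by omega
      nlinarith [Nat.mul_le_mul_right (s * L) h5]
    omega
  have c4 : 2 ^ (s * (L + 2 * j * C) + 1) ≤ 2 ^ 2 ^ (2 * j) := Nat.pow_le_pow_right (by norm_num) c3
  rw [← pow_mul] at c2
  rw [pow_succ] at c4
  have c5 : 4 ≤ 2 ^ 2 ^ (2 * j) := by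
    have : 2 * j < 2 ^ (2 * j) := Nat.lt_two_pow_self
    calc 4 = 2 ^ 2 := rfl
      _ ≤ _ := Nat.pow_le_pow_right (by norm_num) (by omega)
  omega

end Pool.Agent.Results.MP_34afd1_lc.NotAuto
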